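import Mathlib

namespace Pool.Agent.H.MP_69260a_co

open Finset SimpleGraph Matrix

/-- the distance matrix of a graph -/
noncomputable def distMat {V : Type} (G : SimpleGraph V) : Matrix V V ℝ :=
  Matrix.of fun u v : V => (G.dist u v : ℝ)

def Cert {V : Type} (G : SimpleGraph V) (δ : V → V → ℕ) : Prop :=
  (∀ u, δ u u = 0) ∧ (∀ u v w, G.Adj v w → δ u w ≤ δ u v + 1) ∧
    (∀ u v, v ≠ u → ∃ w, G.Adj w v ∧ δ u w + 1 = δ u v)

lemma Cert.ex {V : Type} {G : SimpleGraph V} {δ : V → V → ℕ} (h : Cert G δ) (u : V) (n : ℕ) :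
    ∀ v, δ u v = n → ∃ p : G.Walk u v, p.length = n := by
  induction n with
  | zero =>
    intro v hv
    by_cases e : v = u
    · subst e; exact ⟨.nil, rfl⟩
    · obtain ⟨w, -, h2⟩ := h.2.2 u v e; omega
  | succ n ih =>
    intro v hv
    by_cases e : v = u
    · subst e; rw [h.1] at hv; omega
    · obtain ⟨w, h1, h2⟩ := h.2.2 u v e
      obtain ⟨p, hp⟩ := ih w (by omega)
      exact ⟨p.concat h1, by simp [hp]⟩

lemma Cert.le {V : Type} {G : SimpleGraph V} {δ : V → V → ℕ} (h : Cert G δ) (u : V) {v w : V}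
    (p : G.Walk v w) : δ u w ≤ δ u v + p.length := by
  induction p with
  | nil => simp
  | cons a p ih => have := h.2.1 u _ _ a; simp only [Walk.length_cons]; omega

lemma Cert.dist {V : Type} {G : SimpleGraph V} {δ : V → V → ℕ} (h : Cert G δ) (u v : V) :
    G.Reachable u v ∧ G.dist u v = δ u v := by
  obtain ⟨p, hp⟩ := h.ex u _ v rfl
  refine ⟨⟨p⟩, le_antisymm (hp ▸ dist_le p) ?_⟩
  obtain ⟨q, hq⟩ := (show G.Reachable u v from ⟨p⟩).exists_walk_length_eq_dist
  have := h.le u q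
  rw [h.1, hq] at this; omega

lemma Cert.prod {V W : Type} {G : SimpleGraph V} {H : SimpleGraph W} {δ : V → V → ℕ}
    {ε : W → W → ℕ} (h : Cert G δ) (k : Cert H ε) :
    Cert (G □ H) (fun x y => δ x.1 y.1 + ε x.2 y.2) := by
  refine ⟨fun u => by simp [h.1, k.1], ?_, ?_⟩
  · rintro u ⟨a, b⟩ ⟨c, d⟩ hadj
    rcases boxProd_adj.1 hadj with ⟨h1, h2⟩ | ⟨h1, h2⟩
    · simp only at h1 h2 ⊢; subst h2; have := h.2.1 u.1 _ _ h1; omega
    · simp only at h1 h2 ⊢; subst h2; have := k.2.1 u.2 _ _ h1; omega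
  · rintro ⟨a, b⟩ ⟨c, d⟩ hne
    by_cases e : c = a
    · subst e
      obtain ⟨w, h1, h2⟩ := k.2.2 b d (by rintro rfl; exact hne rfl)
      exact ⟨(c, w), boxProd_adj.2 (Or.inr ⟨h1, rfl⟩), by simp only; omega⟩
    · obtain ⟨w, h1, h2⟩ := h.2.2 a c e
      exact ⟨(w, d), boxProd_adj.2 (Or.inl ⟨h1, rfl⟩), by simp only; omega⟩

def Spec {V : Type} [Fintype V] [DecidableEq V] (δ : V → V → ℕ) (W : V → V → ℤ) (l : V → ℤ)
    (o : V) : Prop :=
  (∀ u j, ∑ v, (δ u v : ℤ) * W v j = W u j * l j) ∧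
    (∀ i j, ∑ v, W v i * W v j = if i = j then (Fintype.card V : ℤ) else 0) ∧ (∀ u, W u o = 1)

def pl {V V' : Type} [Fintype V] [DecidableEq V] [Fintype V'] [DecidableEq V'] (l : V → ℤ)
    (l' : V' → ℤ) (o : V) (o' : V') (x : V × V') : ℤ :=
  (if o' = x.2 then l x.1 * Fintype.card V' else 0) + (if o = x.1 then l' x.2 * Fintype.card V else 0)

lemma Spec.prod {V V' : Type} [Fintype V] [DecidableEq V] [Fintype V'] [DecidableEq V']
    {δ : V → V → ℕ} {W : V → V → ℤ} {l : V → ℤ} {o : V} {δ' : V' → V' → ℕ} {W' : V' → V' → ℤ}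
    {l' : V' → ℤ} {o' : V'} (h : Spec δ W l o) (k : Spec δ' W' l' o') :
    Spec (fun x y : V × V' => δ x.1 y.1 + δ' x.2 y.2) (fun x y => W x.1 y.1 * W' x.2 y.2)
      (pl l l' o o') (o, o') := by
  have s1 : ∀ j, ∑ v, W v j = if o = j then (Fintype.card V : ℤ) else 0 := fun j => by
    simpa [h.2.2] using h.2.1 o j
  have s2 : ∀ j, ∑ v, W' v j = if o' = j then (Fintype.card V' : ℤ) else 0 := fun j => by
    simpa [k.2.2] using k.2.1 o' j
  refine ⟨?_, ?_, fun u => by simp [h.2.2, k.2.2]⟩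
  · rintro ⟨u, u'⟩ ⟨j, j'⟩
    have e : ∑ v : V × V', ((δ u v.1 + δ' u' v.2 : ℕ) : ℤ) * (W v.1 j * W' v.2 j')
        = (∑ v, (δ u v : ℤ) * W v j) * (∑ v, W' v j') + (∑ v, W v j) * ∑ v, (δ' u' v : ℤ) * W' v j' := by
      rw [Fintype.sum_prod_type, sum_mul_sum, sum_mul_sum, ← sum_add_distrib]
      refine sum_congr rfl fun a _ => ?_
      rw [← sum_add_distrib]
      refine sum_congr rfl fun b _ => ?_
      push_cast; ring
    simp only
    rw [e, h.1, k.1, s1, s2, pl]
    by_cases a : o = j <;> by_cases b : o' = j'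
    · subst a b; simp [h.2.2, k.2.2]; ring
    · subst a; simp [h.2.2, b]; ring
    · subst b; simp [k.2.2, a]; ring
    · simp [a, b]
  · rintro ⟨i, i'⟩ ⟨j, j'⟩
    have e : ∑ v : V × V', (W v.1 i * W' v.2 i') * (W v.1 j * W' v.2 j')
        = (∑ v, W v i * W v j) * ∑ v, W' v i' * W' v j' := by
      rw [Fintype.sum_prod_type, sum_mul_sum]
      refine sum_congr rfl fun a _ => sum_congr rfl fun b _ => by ring
    simp only
    rw [e, h.2.1, k.2.1]
    by_cases a : i = j <;> by_cases b : i' = j' <;> simp [a, b]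

lemma charp {V : Type} [Fintype V] [DecidableEq V] {G : SimpleGraph V} {δ : V → V → ℕ}
    {W : V → V → ℤ} {l : V → ℤ} {o : V} (c : Cert G δ) (h : Spec δ W l o) :
    (distMat G).charpoly =
      ((univ.val.map l).map (fun a : ℤ => Polynomial.X - Polynomial.C (a : ℝ))).prod := by
  have hN : (Fintype.card V : ℝ) ≠ 0 := by
    have : 0 < Fintype.card V := Fintype.card_pos_iff.2 ⟨o⟩
    positivity
  let M : Matrix V V ℝ := Matrix.of fun u v => (W u v : ℝ)
  have h1 : distMat G * M = M * diagonal (fun j => (l j : ℝ)) := by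
    ext u j
    rw [mul_diagonal, mul_apply]
    simp only [distMat, M, of_apply, (c.dist _ _).2]
    exact_mod_cast h.1 u j
  have h2 : ((Fintype.card V : ℝ)⁻¹ • Mᵀ) * M = 1 := by
    ext i j
    rw [smul_mul, Matrix.smul_apply, mul_apply, one_apply]
    simp only [M, transpose_apply, of_apply]
    have : ∑ v, (W v i : ℝ) * W v j = if i = j then (Fintype.card V : ℝ) else 0 := by
      exact_mod_cast h.2.1 i j
    rw [this]
    split_ifs <;> simp [hN]
  have h3 : M * ((Fintype.card V : ℝ)⁻¹ • Mᵀ) = 1 := mul_eq_one_comm.1 h2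
  calc (distMat G).charpoly = (distMat G * M * ((Fintype.card V : ℝ)⁻¹ • Mᵀ)).charpoly := by
        rw [Matrix.mul_assoc, h3, Matrix.mul_one]
    _ = (diagonal (fun j => (l j : ℝ))).charpoly := by
        rw [h1, Matrix.mul_assoc, charpoly_mul_comm, Matrix.mul_assoc, h2, Matrix.mul_one]
    _ = _ := by rw [charpoly_diagonal, Multiset.map_map]; rfl

def sm (g : ℕ → ℤ) : ℕ → ℤ
  | 0 => 0
  | n + 1 => sm g n + g n

lemma sm_eq (g : ℕ → ℤ) (n : ℕ) : sm g n = ∑ i : Fin n, g i := by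
  rw [Fin.sum_univ_eq_sum_range]
  induction n with
  | zero => rfl
  | succ n ih => rw [sm, ih, sum_range_succ]

def al (g : ℕ → Bool) : ℕ → Bool
  | 0 => true
  | n + 1 => g n && al g n

lemma al_eq {g : ℕ → Bool} {n : ℕ} (h : al g n = true) (i : Fin n) : g i = true := by
  obtain ⟨i, hi⟩ := i
  induction n with
  | zero => omega
  | succ n ih =>
    simp only [al, Bool.and_eq_true] at h
    by_cases e : i = n
    · subst e; exact h.1
    · exact ih h.2 (by omega)

lemma al_ex {g : ℕ → Bool} {n : ℕ} (h : al g n = false) : ∃ i : Fin n, g i = false := by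
  induction n with
  | zero => simp [al] at h
  | succ n ih =>
    simp only [al, Bool.and_eq_false_iff] at h
    rcases h with h | h
    · exact ⟨Fin.last n, h⟩
    · obtain ⟨i, hi⟩ := ih h; exact ⟨i.castSucc, hi⟩

def dd (T u v : ℕ) : ℕ := (T >>> (3 * (u ^^^ v))) % 8
def par (u : ℕ) : ℕ := (7608434000728254870 >>> u) % 2
def ww (u j : ℕ) : ℤ := if par (u &&& j) = 0 then 1 else -1
def ll (T N j : ℕ) : ℤ := sm (fun v => (dd T 0 v : ℤ) * ww v j) N

/-- cubelike graph: adjacency is table value one -/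
def gr (T N : ℕ) : SimpleGraph (Fin N) where
  Adj u v := dd T u v = 1 ∧ u ≠ v
  symm := ⟨fun u v h => ⟨by rw [dd, Nat.xor_comm]; exact h.1, h.2.symm⟩⟩
  loopless := ⟨fun u h => h.2 rfl⟩

def c1 (T N : ℕ) : Bool :=
  al (fun u => dd T u u == 0 && ww u 0 == 1 && al (fun v =>
    al (fun w => !(dd T v w == 1) || decide (dd T u w ≤ dd T u v + 1)) N &&
    (v == u || !(al (fun w => !(dd T w v == 1 && w != v && dd T u w + 1 == dd T u v)) N))) N) N

def c2 (T N : ℕ) : Bool :=
  al (fun j => let l := ll T N j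
    al (fun u => sm (fun v => (dd T u v : ℤ) * ww v j) N == ww u j * l) N) N

def c3 (N : ℕ) : Bool :=
  al (fun i => al (fun j => sm (fun v => ww v i * ww v j) N == if i = j then (N : ℤ) else 0) N) N

lemma cert {T N : ℕ} (h : c1 T N = true) : Cert (gr T N) (fun u v => dd T u v) := by
  refine ⟨fun u => ?_, fun u v w a => ?_, fun u v a => ?_⟩
  · have := al_eq h u; simp only [Bool.and_eq_true, beq_iff_eq] at this; exact this.1.1
  · have := al_eq h u; simp only [Bool.and_eq_true] at this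
    have := al_eq this.2 v; simp only [Bool.and_eq_true] at this
    have := al_eq this.1 w
    simpa [a.1] using this
  · have := al_eq h u; simp only [Bool.and_eq_true] at this
    have := al_eq this.2 v; simp only [Bool.and_eq_true] at this
    have h2 := this.2
    have hv : ((v : ℕ) == u) = false := by simpa [Fin.ext_iff] using a
    rw [hv, Bool.false_or, Bool.not_eq_true'] at h2
    obtain ⟨w, hw⟩ := al_ex h2
    simp only [Bool.not_eq_false', Bool.and_eq_true, beq_iff_eq, bne_iff_ne] at hw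
    exact ⟨w, ⟨hw.1.1, fun e => hw.1.2 (congrArg Fin.val e)⟩, hw.2⟩

lemma spec {T N : ℕ} (h1 : c1 T (N + 1) = true) (h2 : c2 T (N + 1) = true) (h3 : c3 (N + 1) = true) :
    Spec (fun u v : Fin (N + 1) => dd T u v) (fun u v => ww u v) (fun j => ll T (N + 1) j) 0 := by
  refine ⟨fun u j => ?_, fun i j => ?_, fun u => ?_⟩
  · have := al_eq (al_eq h2 j) u
    rw [beq_iff_eq, sm_eq] at this; exact this
  · have := al_eq (al_eq h3 i) j
    rw [beq_iff_eq, sm_eq] at this; simpa [Fin.ext_iff] using this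
  · have := al_eq h1 u; simp only [Bool.and_eq_true, beq_iff_eq] at this; exact this.1.2

end Pool.Agent.H.MP_69260a_co
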