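import Pool.Agent.H.MP_69260a_co.A

namespace Pool.Agent.H.MP_69260a_co

open Finset SimpleGraph Matrix

def T4 : ℕ := 84261103801416
def T6 : ℕ := 1683309942527745136811038602880703963182081465719856895048
def T5a : ℕ := 23896356943689579105729713224
def T5b : ℕ := 32521059750202626241358009416

set_option maxRecDepth 100000 in
lemma a4 : c1 T4 16 = true := by decide +kernel
set_option maxRecDepth 100000 in
lemma a5a : c1 T5a 32 = true := by decide +kernel
set_option maxRecDepth 100000 in
lemma a5b : c1 T5b 32 = true := by decide +kernel
set_option maxRecDepth 100000 in
lemma a6 : c1 T6 64 = true := by decide +kernel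
set_option maxRecDepth 100000 in
lemma b4 : c2 T4 16 = true := by decide +kernel
set_option maxRecDepth 100000 in
lemma b5a : c2 T5a 32 = true := by decide +kernel
set_option maxRecDepth 100000 in
lemma b5b : c2 T5b 32 = true := by decide +kernel
set_option maxRecDepth 100000 in
lemma b6 : c2 T6 64 = true := by decide +kernel
set_option maxRecDepth 100000 in
lemma d4 : c3 16 = true := by decide +kernel
set_option maxRecDepth 100000 in
lemma d5 : c3 32 = true := by decide +kernel
set_option maxRecDepth 100000 in
lemma d6 : c3 64 = true := by decide +kernel

end Pool.Agent.H.MP_69260a_co
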